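import Mathlib

/-!
# Families of lines covering all points but one
-/

set_option autoImplicit false

namespace Pool.Agent.H730.CT

open Finset Classical

variable {α : Type*}

/-- the part of the finite set `E` in `A` -/
noncomputable def pts (E : Finset α) (A : Set α) : Finset α := E.filter (· ∈ A)

lemma mem_pts {E : Finset α} {A : Set α} {x : α} : x ∈ pts E A ↔ x ∈ E ∧ x ∈ A := by
  simp [pts]

/-- for every point `y` of `E` the at most `t` sets `L y`, which do not contain `y`, cover the other points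
of `E`; two of all these sets which share two points of `E` are equal -/
structure Sys (t : ℕ) (E : Finset α) (L : α → Finset (Set α)) : Prop where
  lin : ∀ y ∈ E, ∀ z ∈ E, ∀ A ∈ L y, ∀ B ∈ L z, ∀ u ∈ E, ∀ v ∈ E, u ∈ A → u ∈ B → v ∈ A → v ∈ B →
    u ≠ v → A = B
  card : ∀ y ∈ E, (L y).card ≤ t
  notMem : ∀ y ∈ E, ∀ A ∈ L y, y ∉ A
  cover : ∀ y ∈ E, ∀ x ∈ E, x ≠ y → ∃ A ∈ L y, x ∈ A

/-- the bound -/
def bd (t : ℕ) : ℕ := if t ≤ 4 then (t + 2).choose 2 else t * t + 3 - t

variable {t : ℕ} {E : Finset α} {L : α → Finset (Set α)}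

/-- a set with more than `t` points on a line which does not contain `y`: the line belongs to `L y` -/
lemma mem_of_large (h : Sys t E L) {y₀ : α} (hy₀ : y₀ ∈ E) {A : Set α} (hA : A ∈ L y₀) {y : α} (hy : y ∈ E)
    (W : Finset α) (hW : ∀ w ∈ W, w ∈ E ∧ w ∈ A ∧ w ≠ y) (hc : t < W.card) : A ∈ L y := by
  choose! f hf1 hf2 using fun x (hx : x ∈ W) => h.cover y hy x (hW x hx).1 (hW x hx).2.2
  obtain ⟨u, hu, v, hv, huv, he⟩ := Finset.exists_ne_map_eq_of_card_lt_of_maps_to
    (lt_of_le_of_lt (h.card y hy) hc) hf1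
  have e : A = f u := h.lin y₀ hy₀ y hy A hA (f u) (hf1 u hu) u (hW u hu).1 v (hW v hv).1 (hW u hu).2.1
    (hf2 u hu) (hW v hv).2.1 (by rw [he]; exact hf2 v hv) huv
  rw [e]
  exact hf1 u hu

/-- a line with more than `t` points can be removed -/
lemma step_large (h : Sys (t + 1) E L) {y₀ : α} (hy₀ : y₀ ∈ E) {A : Set α} (hA : A ∈ L y₀)
    (hc : t + 1 < (pts E A).card) :
    (pts E A).card ≤ t + 2 ∧ Sys t (E \ pts E A) (fun y => (L y).erase A) := by
  have hin : ∀ y ∈ E, y ∉ A → A ∈ L y := by
    intro y hy hyA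
    refine mem_of_large h hy₀ hA hy (pts E A) (fun w hw => ?_) hc
    rw [mem_pts] at hw
    exact ⟨hw.1, hw.2, fun e => hyA (e ▸ hw.2)⟩
  refine ⟨?_, ?_⟩
  · by_contra hcon
    push Not at hcon
    obtain ⟨y, hy⟩ : (pts E A).Nonempty := Finset.card_pos.1 (by omega)
    have hy' := mem_pts.1 hy
    have := mem_of_large h hy₀ hA hy'.1 ((pts E A).erase y) (fun w hw => by
      rw [Finset.mem_erase, mem_pts] at hw
      exact ⟨hw.2.1, hw.2.2, hw.1⟩) (by rw [Finset.card_erase_of_mem hy]; omega)
    exact h.notMem y hy'.1 A this hy'.2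
  · have hE : ∀ y, y ∈ E \ pts E A ↔ y ∈ E ∧ y ∉ A := by
      intro y
      rw [Finset.mem_sdiff, mem_pts]
      tauto
    refine ⟨?_, ?_, ?_, ?_⟩
    · intro y hy z hz B hB C hC u hu v hv
      exact h.lin y ((hE y).1 hy).1 z ((hE z).1 hz).1 B (Finset.mem_of_mem_erase hB) C
        (Finset.mem_of_mem_erase hC) u ((hE u).1 hu).1 v ((hE v).1 hv).1
    · intro y hy
      have h1 := (hE y).1 hy
      rw [Finset.card_erase_of_mem (hin y h1.1 h1.2)]
      have := h.card y h1.1
      omega
    · intro y hy B hB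
      exact h.notMem y ((hE y).1 hy).1 B (Finset.mem_of_mem_erase hB)
    · intro y hy x hx hxy
      obtain ⟨B, hB, hxB⟩ := h.cover y ((hE y).1 hy).1 x ((hE x).1 hx).1 hxy
      refine ⟨B, Finset.mem_erase.2 ⟨?_, hB⟩, hxB⟩
      rintro rfl
      exact ((hE x).1 hx).2 hxB

/-- if all lines have at most `t` points there are at most `t² - t + 3` points -/
lemma step_small (ht : 1 ≤ t) (h : Sys t E L) (hs : ∀ y ∈ E, ∀ A ∈ L y, (pts E A).card ≤ t) :
    E.card + t ≤ t * t + 3 := by
  by_contra hcon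
  push Not at hcon
  have hcon : t * t + 4 ≤ E.card + t := hcon
  -- all lines have at least three points
  have h3 : ∀ y ∈ E, ∀ A ∈ L y, 3 ≤ (pts E A).card := by
    intro y hy A hA
    have h1 : E.erase y ⊆ (L y).biUnion (fun B => pts E B) := by
      intro x hx
      rw [Finset.mem_erase] at hx
      obtain ⟨B, hB, hxB⟩ := h.cover y hy x hx.2 hx.1
      rw [Finset.mem_biUnion]
      exact ⟨B, hB, mem_pts.2 ⟨hx.2, hxB⟩⟩
    have h2 := (Finset.card_le_card h1).trans Finset.card_biUnion_le
    rw [Finset.card_erase_of_mem hy, ← Finset.add_sum_erase _ _ hA] at h2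
    have h4 : ∑ B ∈ (L y).erase A, (pts E B).card ≤ (t - 1) * t := by
      calc ∑ B ∈ (L y).erase A, (pts E B).card ≤ ∑ B ∈ (L y).erase A, t :=
            Finset.sum_le_sum fun B hB => hs y hy B (Finset.mem_of_mem_erase hB)
        _ = ((L y).card - 1) * t := by
            rw [Finset.sum_const, Finset.card_erase_of_mem hA, smul_eq_mul]
        _ ≤ (t - 1) * t := Nat.mul_le_mul_right _ (Nat.sub_le_sub_right (h.card y hy) 1)
    obtain ⟨s, rfl⟩ : ∃ s, t = s + 1 := ⟨t - 1, by omega⟩
    simp only [Nat.add_sub_cancel] at h4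
    have e : (s + 1) * (s + 1) = s * (s + 1) + (s + 1) := by ring
    rw [e] at hcon
    omega
  -- the families of different points are disjoint
  have hd : ∀ y ∈ E, ∀ z ∈ E, y ≠ z → Disjoint (L y) (L z) := by
    intro y hy z hz hyz
    rw [Finset.disjoint_iff_inter_eq_empty]
    by_contra hne
    have hne' : 1 ≤ (L y ∩ L z).card := Finset.card_pos.2 (Finset.nonempty_iff_ne_empty.2 hne)
    have hlt : (L y ∩ L z).card < t := by
      by_contra hge
      push Not at hge
      have h1 : L y ∩ L z = L y := Finset.eq_of_subset_of_card_le Finset.inter_subset_left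
        ((h.card y hy).trans hge)
      obtain ⟨B, hB, hzB⟩ := h.cover y hy z hz (Ne.symm hyz)
      rw [← h1, Finset.mem_inter] at hB
      exact h.notMem z hz B hB.2 hzB
    set c := (L y ∩ L z).card with hc
    have hR : (L y \ L z).card ≤ t - c := by
      have := Finset.card_sdiff_add_card_inter (L y) (L z)
      have := h.card y hy
      omega
    have hN : (L z \ L y).card ≤ t - c := by
      have := Finset.card_sdiff_add_card_inter (L z) (L y)
      have := h.card z hz
      rw [Finset.inter_comm] at hc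
      omega
    have hsub : (E.erase y).erase z ⊆ (L y ∩ L z).biUnion (fun B => pts E B) ∪
        ((L y \ L z) ×ˢ (L z \ L y)).biUnion (fun p => pts E (p.1 ∩ p.2)) := by
      intro x hx
      rw [Finset.mem_erase, Finset.mem_erase] at hx
      obtain ⟨A, hA, hxA⟩ := h.cover y hy x hx.2.2 hx.2.1
      obtain ⟨B, hB, hxB⟩ := h.cover z hz x hx.2.2 hx.1
      rw [Finset.mem_union, Finset.mem_biUnion, Finset.mem_biUnion]
      by_cases h1 : A ∈ L z
      · exact Or.inl ⟨A, Finset.mem_inter.2 ⟨hA, h1⟩, mem_pts.2 ⟨hx.2.2, hxA⟩⟩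
      · by_cases h2 : B ∈ L y
        · exact Or.inl ⟨B, Finset.mem_inter.2 ⟨h2, hB⟩, mem_pts.2 ⟨hx.2.2, hxB⟩⟩
        · exact Or.inr ⟨(A, B), Finset.mem_product.2 ⟨Finset.mem_sdiff.2 ⟨hA, h1⟩,
            Finset.mem_sdiff.2 ⟨hB, h2⟩⟩, mem_pts.2 ⟨hx.2.2, hxA, hxB⟩⟩
    have h5 := (Finset.card_le_card hsub).trans (Finset.card_union_le _ _)
    have h6 : ((L y ∩ L z).biUnion (fun B => pts E B)).card ≤ c * t :=
      Finset.card_biUnion_le_card_mul _ _ _ fun B hB => hs y hy B (Finset.mem_inter.1 hB).1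
    have h7 : (((L y \ L z) ×ˢ (L z \ L y)).biUnion (fun p => pts E (p.1 ∩ p.2))).card ≤
        ((L y \ L z) ×ˢ (L z \ L y)).card * 1 := by
      refine Finset.card_biUnion_le_card_mul _ _ _ fun p hp => ?_
      rw [Finset.mem_product, Finset.mem_sdiff, Finset.mem_sdiff] at hp
      rw [Finset.card_le_one]
      intro u hu v hv
      rw [mem_pts] at hu hv
      by_contra huv
      have := h.lin y hy z hz p.1 hp.1.1 p.2 hp.2.1 u hu.1 v hv.1 hu.2.1 hu.2.2 hv.2.1 hv.2.2 huv
      exact hp.1.2 (this ▸ hp.2.1)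
    rw [mul_one, Finset.card_product] at h7
    have h8 : (L y \ L z).card * (L z \ L y).card ≤ (t - c) * (t - c) := Nat.mul_le_mul hR hN
    rw [Finset.card_erase_of_mem (Finset.mem_erase.2 ⟨Ne.symm hyz, hz⟩), Finset.card_erase_of_mem hy] at h5
    obtain ⟨a, ha⟩ : ∃ a, c = a + 1 := ⟨c - 1, by omega⟩
    obtain ⟨b, hb⟩ : ∃ b, t = c + b + 1 := ⟨t - c - 1, by omega⟩
    have h9 : t - c = b + 1 := by omega
    rw [h9] at h8
    have h10 : E.card ≤ 2 + c * t + (b + 1) * (b + 1) := by omega
    rw [ha] at hb h10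
    have h11 : t = a + b + 2 := by omega
    rw [h11] at h10 hcon
    nlinarith
  -- one point is on too many lines
  obtain ⟨p, hp⟩ : E.Nonempty := Finset.card_pos.1 (by nlinarith)
  choose! f hf1 hf2 using fun y (hy : y ∈ E.erase p) =>
    h.cover y (Finset.mem_of_mem_erase hy) p hp (Finset.ne_of_mem_erase hy).symm
  have hdis : ((E.erase p : Finset α) : Set α).PairwiseDisjoint (fun y => (pts E (f y)).erase p) := by
    intro y hy z hz hyz
    rw [Function.onFun, Finset.disjoint_left]
    intro q hq hq'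
    have hy' : y ∈ E.erase p := hy
    have hz' : z ∈ E.erase p := hz
    have hyE := Finset.mem_of_mem_erase hy'
    have hzE := Finset.mem_of_mem_erase hz'
    rw [Finset.mem_erase, mem_pts] at hq hq'
    have e := h.lin y hyE z hzE (f y) (hf1 y hy') (f z) (hf1 z hz') p hp q hq.2.1 (hf2 y hy') (hf2 z hz')
      hq.2.2 hq'.2.2 (Ne.symm hq.1)
    exact Finset.disjoint_left.1 (hd y hyE z hzE hyz) (hf1 y hy') (e ▸ hf1 z hz')
  have h12 : (E.erase p).biUnion (fun y => (pts E (f y)).erase p) ⊆ E.erase p := by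
    intro q hq
    rw [Finset.mem_biUnion] at hq
    obtain ⟨y, -, hq⟩ := hq
    rw [Finset.mem_erase, mem_pts] at hq
    exact Finset.mem_erase.2 ⟨hq.1, hq.2.1⟩
  have h13 := Finset.card_le_card h12
  rw [Finset.card_biUnion hdis] at h13
  have h14 : ∑ y ∈ E.erase p, 2 ≤ ∑ y ∈ E.erase p, ((pts E (f y)).erase p).card := by
    refine Finset.sum_le_sum fun y hy => ?_
    rw [Finset.card_erase_of_mem (mem_pts.2 ⟨hp, hf2 y hy⟩)]
    have := h3 y (Finset.mem_of_mem_erase hy) (f y) (hf1 y hy)
    omega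
  rw [Finset.sum_const, smul_eq_mul] at h14
  rw [Finset.card_erase_of_mem hp] at h13 h14
  have h15 := Nat.le_mul_self t
  omega

/-- **The bound for the number of the points.** -/
theorem card_le : ∀ (t : ℕ) (E : Finset α) (L : α → Finset (Set α)), Sys t E L → E.card ≤ bd t := by
  intro t
  induction t with
  | zero =>
    intro E L h
    have : E.card ≤ 1 := by
      rw [Finset.card_le_one]
      intro x hx y hy
      by_contra hxy
      obtain ⟨A, hA, -⟩ := h.cover y hy x hx hxy
      have := h.card y hy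
      rw [Nat.le_zero, Finset.card_eq_zero] at this
      rw [this] at hA
      simp at hA
    simpa [bd] using this
  | succ t ih =>
    intro E L h
    by_cases hl : ∃ y ∈ E, ∃ A ∈ L y, t + 1 < (pts E A).card
    · obtain ⟨y, hy, A, hA, hc⟩ := hl
      obtain ⟨h1, h2⟩ := step_large h hy hA hc
      have h3 := ih _ _ h2
      have h4 : E.card = (E \ pts E A).card + (pts E A).card :=
        (Finset.card_sdiff_add_card_eq_card (Finset.filter_subset _ _)).symm
      have h5 : bd t + (t + 2) ≤ bd (t + 1) := by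
        unfold bd
        rcases Nat.lt_or_ge t 5 with h6 | h6
        · interval_cases t <;> simp [Nat.choose]
        · rw [if_neg (by omega), if_neg (by omega)]
          have : t ≤ t * t := Nat.le_mul_self t
          have e : (t + 1) * (t + 1) = t * t + 2 * t + 1 := by ring
          rw [e]
          omega
      omega
    · push Not at hl
      have h1 := step_small (t := t + 1) (by omega) h hl
      have h5 : (t + 1) * (t + 1) + 3 - (t + 1) ≤ bd (t + 1) := by
        unfold bd
        split_ifs with h6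
        · have : t ≤ 3 := by omega
          interval_cases t <;> simp [Nat.choose]
        · exact le_rfl
      omega

end Pool.Agent.H730.CT
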